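import Pool.Agent.CoprimeSig.PowTorus
import Pool.Agent.TateOdd.Dir1
import Pool.Agent.TypeIV.KindFull

/-!
# The Hodge conjecture for all powers of an abelian variety
-/

set_option autoImplicit false
set_option maxSynthPendingDepth 3

universe u

namespace Pool.Agent.HodgeAll

open Complex Module Pool.Agent.GHC Pool.Agent.GHCFull Pool.Agent.OddRank
open Pool.Agent.TateOdd (dg dg_apply prods Div NoRel tate_of_noRel)
open Pool.Agent.TypeIV.MX (KSp KSl)
open Pool.Agent.CoprimeSig (der_comp prods_comp hodge_of_prods)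

variable {V : Type u} [NormedAddCommGroup V] [NormedSpace ℂ V] {Λ : Submodule ℤ V}
  [DiscreteTopology Λ] [IsZLattice ℝ Λ] {ι : Type} [Fintype ι] [DecidableEq ι]
  [FiniteDimensional ℂ V] (b : Basis ι ℤ Λ) {E : V →L[ℝ] V →L[ℝ] ℝ}

private theorem curry_block {n : ℕ} (M : Matrix ι ι ℂ) (w : (Σ _ : Fin n, ι) → ℂ) :
    LinearEquiv.piCurry ℂ (fun (_ : Fin n) (_ : ι) => ℂ)
      (Matrix.toLin' (Matrix.blockDiagonal' fun _ : Fin n => M) w) =
      dg n (Matrix.toLin' M) (LinearEquiv.piCurry ℂ (fun (_ : Fin n) (_ : ι) => ℂ) w) := by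
  funext a i
  change (Matrix.toLin' (Matrix.blockDiagonal' fun _ : Fin n => M) w) ⟨a, i⟩ =
    Matrix.toLin' M (fun i => w ⟨a, i⟩) i
  rw [Matrix.toLin'_apply, Matrix.toLin'_apply, Matrix.mulVec, Matrix.mulVec, dotProduct,
    dotProduct, Fintype.sum_sigma, Finset.sum_eq_single a]
  · exact Finset.sum_congr rfl fun k _ => by rw [Matrix.blockDiagonal'_apply_eq]
  · intro c _ hc
    refine Finset.sum_eq_zero fun k _ => ?_
    rw [Matrix.blockDiagonal'_apply_ne _ _ _ (Ne.symm hc), zero_mul]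
  · intro h
    exact absurd (Finset.mem_univ a) h

/-- The Hodge conjecture for all powers of an abelian variety, if the forms on which the conjugates
of the Hodge projector act as on Hodge classes are sums of products of two forms. -/
theorem hodge_powers_of (hE : IsRiemannForm Λ E)
    (h : ∀ (n j : ℕ) (f : AForm (Fin n → ι → ℂ) (2 * j)),
      (∀ e ∈ hodgeConj b, der (dg n e) (2 * j) f = (j : ℂ) • f) →
      f ∈ prods (Div (dg n '' hodgeConj b)) j) (n j : ℕ) :
    GeneralizedHodge (prodL fun _ : Fin n => Λ) j (2 * j) := by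
  have hd : DiscreteTopology (prodL fun _ : Fin n => Λ) := prodL_discrete fun _ : Fin n => b
  have hz : IsZLattice ℝ (prodL fun _ : Fin n => Λ) := prodL_isZLattice fun _ : Fin n => b
  obtain ⟨b', hb'⟩ := exists_prodBasis fun _ : Fin n => b
  obtain ⟨E', hE'⟩ := exists_prodForm (fun _ : Fin n => E) fun _ => hE
  have hproj := hodgeProj_prod (fun _ : Fin n => b) b' hb'
  let e : ((Σ _ : Fin n, ι) → ℂ) ≃ₗ[ℂ] (Fin n → ι → ℂ) :=
    LinearEquiv.piCurry ℂ (fun (_ : Fin n) (_ : ι) => ℂ)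
  have hconj : ∀ (σ : ℂ →+* ℂ) (w : (Σ _ : Fin n, ι) → ℂ),
      e (Matrix.toLin' ((hodgeProj b').map σ) w) =
        dg n (Matrix.toLin' ((hodgeProj b).map σ)) (e w) := by
    intro σ w
    rw [hproj, Matrix.blockDiagonal'_map _ _ (map_zero σ)]
    exact curry_block _ w
  refine hodge_of_prods b' hE' j fun f hf => ?_
  set f' : AForm (Fin n → ι → ℂ) (2 * j) := f.compLinearMap e.symm.toLinearMap with hf'
  have hff : f = f'.compLinearMap e.toLinearMap := by
    ext v
    rw [AlternatingMap.compLinearMap_apply, hf', AlternatingMap.compLinearMap_apply]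
    exact congrArg f (funext fun a => (e.symm_apply_apply (v a)).symm)
  have h1 : ∀ e ∈ hodgeConj b, der (dg n e) (2 * j) f' = (j : ℂ) • f' := by
    rintro _ ⟨σ, rfl⟩
    have h2 := der_comp e.symm.toLinearMap (x := dg n (Matrix.toLin' ((hodgeProj b).map σ)))
      (y := Matrix.toLin' ((hodgeProj b').map σ)) (fun v => by
        apply e.injective
        change e (e.symm _) = e (Matrix.toLin' ((hodgeProj b').map σ) (e.symm v))
        rw [hconj, e.apply_symm_apply, e.apply_symm_apply]) (2 * j) f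
    rw [hf _ ⟨σ, rfl⟩] at h2
    exact h2
  have h2 := h n j f' h1
  rw [hff]
  refine prods_comp e.toLinearMap (fun ω hω => ⟨fun x => hω.1 _, ?_⟩) j f' h2
  rintro _ ⟨σ, rfl⟩ x y
  have h3 := hω.2 _ ⟨_, ⟨σ, rfl⟩, rfl⟩ (e x) (e y)
  rw [← hconj, ← hconj] at h3
  exact h3

/-- **Main theorem.** -/
theorem hodge_of_noRel (hE : IsRiemannForm Λ E)
    (hkind : ∀ W, Irreducible (hodgeConj b) W → finrank ℂ W = 1 ∨ KSp (hodgeConj b) W ∨
      KSl (hodgeConj b) W) (hno : NoRel (hodgeConj b)) (n j : ℕ) :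
    GeneralizedHodge (prodL fun _ : Fin n => Λ) j (2 * j) :=
  hodge_powers_of b hE (fun n j f hf => tate_of_noRel (psi_alt b hE) (psi_nd b hE)
    ⟨_, hodgeProj_mem b⟩ (hodgeConj_idem b) (psi_conj b hE) (semisimple b hE) hkind hno n j f hf)
    n j

end Pool.Agent.HodgeAll
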